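import Pool.Agent.H51.OVO.Frz
import Pool.Agent.H27.OVO.Asm
import Pool.Agent.H74.OVL.Bas

/-! Ovoids of `PG(3,q)`: the classification. -/

set_option autoImplicit false

namespace Pool.Agent.H51.OVO

open Pool.BPA Pool.OVE

/-- Every ovoid of `PG(3, 2^h)`, `h ≥ 3`, is an elliptic quadric or a Tits ovoid. -/
theorem even : EvenStmt := even_of Pool.OVL.t_base Pool.OVE27.t_layer2

/-- The classification for every finite field. -/
theorem frozen : FrozenStmt := frozen_of_even even

end Pool.Agent.H51.OVO
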