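import Pool.Agent.H51.OVO.Top
import Pool.Agent.H61.BPA.All

/-! Ovoids of `PG(3,q)`, all `q`, from layer 1 and layer 2 of the digit part. -/

set_option autoImplicit false

namespace Pool.Agent.H51.OVO

open Pool.BPA Pool.OVE

theorem even_of (hB : BaseStmt) (hT : LayerTwoStmt) : EvenStmt := t_even aff hB hT

theorem frozen_of (hB : BaseStmt) (hT : LayerTwoStmt) : FrozenStmt :=
  frozen_of_even (even_of hB hT)

end Pool.Agent.H51.OVO
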