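import Pool.Agent.H51.OVO.Fin

/-! Ovoids of `PG(3,q)`: elliptic quadrics in the sense of the problem file (nondegenerate quadratic
form, no line in the zero set). -/

set_option autoImplicit false
set_option linter.unusedSectionVars false
set_option linter.style.haveILetI false

namespace Pool.Agent.H51.OVO

open QuadraticMap

variable {F : Type} [Field F]

theorem q_comb (Q : QuadraticForm F (Fin 4 → F)) (x y : Fin 4 → F) (a b : F) :
    Q (a • x + b • y) = a ^ 2 * Q x + b ^ 2 * Q y + a * b * polar Q x y := by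
  have h1 : polar Q (a • x) (b • y) = a * b * polar Q x y := by
    rw [polar_smul_left, polar_smul_right]
    simp only [smul_eq_mul]
    ring
  have h2 : Q (a • x + b • y) = Q (a • x) + Q (b • y) + polar Q (a • x) (b • y) := by
    unfold polar; ring
  rw [h2, h1, QuadraticMap.map_smul, QuadraticMap.map_smul]
  simp only [smul_eq_mul]
  ring

/-- no point of the radical is singular, if two singular points never lie on a singular line. -/
theorem rad_sing (Q : QuadraticForm F (Fin 4 → F))
    (hL : ∀ x y : Fin 4 → F, LinearIndependent F ![x, y] → ∃ a b : F, Q (a • x + b • y) ≠ 0)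
    (hS : ∀ x : Fin 4 → F, x = 0 ∨ ∃ y, Q y = 0 ∧ LinearIndependent F ![x, y])
    (x : Fin 4 → F) (hx : ∀ y, polar Q x y = 0) (hQ : Q x = 0) : x = 0 := by
  rcases hS x with h0 | ⟨y, hy, hxy⟩
  · exact h0
  · obtain ⟨a, b, hab⟩ := hL x y hxy
    exact absurd (by rw [q_comb, hQ, hy, hx]; ring) hab

theorem polar_exp (Q : QuadraticForm F (Fin 4 → F)) (x y : Fin 4 → F) :
    polar Q x y = ∑ i, ∑ j, x i * y j * polar Q (Pi.single i 1) (Pi.single j 1) := by
  have hx : x = ∑ i, x i • (Pi.single i (1 : F) : Fin 4 → F) := by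
    funext k
    simp [Finset.sum_apply, Pi.single_apply]
  have hy : y = ∑ j, y j • (Pi.single j (1 : F) : Fin 4 → F) := by
    funext k
    simp [Finset.sum_apply, Pi.single_apply]
  have h1 : polar Q x y = (polarBilin Q) x y := rfl
  have h2 : ∀ i j, polar Q (Pi.single i 1) (Pi.single j 1) =
    (polarBilin Q) (Pi.single i (1 : F)) (Pi.single j (1 : F)) := fun i j => rfl
  rw [h1]
  conv_lhs => rw [hx, hy]
  simp only [map_sum, LinearMap.sum_apply, map_smul, LinearMap.smul_apply, smul_eq_mul, h2]
  simp only [Finset.mul_sum]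
  rw [Finset.sum_comm]
  exact Finset.sum_congr rfl fun i _ => Finset.sum_congr rfl fun j _ => by ring

variable [Fintype F]

theorem rad_two [CharP F 2] (Q : QuadraticForm F (Fin 4 → F))
    (hR : ∀ x, (∀ y, polar Q x y = 0) → Q x = 0 → x = 0)
    (x : Fin 4 → F) (hx : ∀ y, polar Q x y = 0) : x = 0 := by
  have h2 : (2 : F) = 0 := CharTwo.two_eq_zero
  by_contra hx0
  -- two vectors of the radical are proportional
  have prop : ∀ c d : Fin 4 → F, (∀ y, polar Q c y = 0) → (∀ y, polar Q d y = 0) → c ≠ 0 →
      ∃ t : F, d = t • c := by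
    intro c d hc hd hc0
    have hQc : Q c ≠ 0 := fun hh => hc0 (hR c hc hh)
    obtain ⟨t, ht⟩ := (frobeniusEquiv F 2).surjective (Q d / Q c)
    have ht' : t ^ 2 * Q c = Q d := by
      have : t ^ 2 = Q d / Q c := ht
      rw [this, div_mul_cancel₀ _ hQc]
    refine ⟨t, ?_⟩
    have h3 : t • c + (1 : F) • d = 0 := by
      apply hR
      · intro y
        rw [polar_add_left, polar_smul_left, polar_smul_left, hc, hd]
        simp
      · rw [q_comb, hc, ht']
        linear_combination (Q d) * h2
    rw [one_smul] at h3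
    have h4 : d = -(t • c) := by rw [eq_neg_iff_add_eq_zero, add_comm]; exact h3
    rw [h4]
    funext i
    simp only [Pi.neg_apply, Pi.smul_apply, smul_eq_mul]
    linear_combination -(t * c i) * h2
  set b : Fin 4 → Fin 4 → F := fun i j => polar Q (Pi.single i 1) (Pi.single j 1) with hb
  have hsym : ∀ i j, b i j = b j i := fun i j => polar_comm Q _ _
  have hd : ∀ i, b i i = 0 := by
    intro i
    change polar Q (Pi.single i 1) (Pi.single i 1) = 0
    rw [polar_self]
    rw [two_smul]
    exact CharTwo.add_self_eq_zero _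
  have hexp : ∀ u v : Fin 4 → F, polar Q u v = ∑ i, ∑ j, u i * v j * b i j := polar_exp Q
  have hrad : ∀ u : Fin 4 → F, (u 1 * b 0 1 + u 2 * b 0 2 + u 3 * b 0 3 = 0) →
      (u 0 * b 0 1 + u 2 * b 1 2 + u 3 * b 1 3 = 0) →
      (u 0 * b 0 2 + u 1 * b 1 2 + u 3 * b 2 3 = 0) →
      (u 0 * b 0 3 + u 1 * b 1 3 + u 2 * b 2 3 = 0) → ∀ v, polar Q u v = 0 := by
    intro u e0 e1 e2 e3 v
    rw [hexp]
    simp only [Fin.sum_univ_four, hd, hsym 1 0, hsym 2 0, hsym 3 0, hsym 2 1, hsym 3 1, hsym 3 2]
    linear_combination v 0 * e0 + v 1 * e1 + v 2 * e2 + v 3 * e3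
  have hrad' : ∀ u : Fin 4 → F, (∀ v, polar Q u v = 0) →
      (u 1 * b 0 1 + u 2 * b 0 2 + u 3 * b 0 3 = 0) ∧
      (u 0 * b 0 1 + u 2 * b 1 2 + u 3 * b 1 3 = 0) ∧
      (u 0 * b 0 2 + u 1 * b 1 2 + u 3 * b 2 3 = 0) ∧
      (u 0 * b 0 3 + u 1 * b 1 3 + u 2 * b 2 3 = 0) := by
    intro u hu
    have key : ∀ k, ∑ i, u i * b i k = 0 := by
      intro k
      have := hu (Pi.single k 1)
      rw [hexp] at this
      rw [← this]
      refine Finset.sum_congr rfl fun i _ => ?_
      rw [Finset.sum_eq_single k]
      · simp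
      · intro j _ hj
        rw [Pi.single_eq_of_ne hj]; ring
      · intro hh; exact absurd (Finset.mem_univ _) hh
    have k0 := key 0
    have k1 := key 1
    have k2 := key 2
    have k3 := key 3
    simp only [Fin.sum_univ_four, hd, hsym 1 0, hsym 2 0, hsym 3 0, hsym 2 1, hsym 3 1,
      hsym 3 2] at k0 k1 k2 k3
    refine ⟨?_, ?_, ?_, ?_⟩
    · linear_combination k0
    · linear_combination k1
    · linear_combination k2
    · linear_combination k3
  obtain ⟨x0, x1, x2, x3⟩ := hrad' x hx
  set Pf : F := b 0 1 * b 2 3 + b 0 2 * b 1 3 + b 0 3 * b 1 2 with hPf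
  have hP : Pf = 0 := by
    by_contra hne
    apply hx0
    funext i
    have : x i * Pf = 0 := by
      fin_cases i
      · change x 0 * Pf = 0
        rw [hPf]
        linear_combination b 2 3 * x1 + b 1 3 * x2 + b 1 2 * x3 -
          (x 2 * b 1 2 * b 2 3 + x 3 * b 1 3 * b 2 3 + x 1 * b 1 2 * b 1 3) * h2
      · change x 1 * Pf = 0
        rw [hPf]
        linear_combination b 2 3 * x0 + b 0 3 * x2 + b 0 2 * x3 -
          (x 2 * b 0 2 * b 2 3 + x 3 * b 0 3 * b 2 3 + x 0 * b 0 2 * b 0 3) * h2
      · change x 2 * Pf = 0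
        rw [hPf]
        linear_combination b 1 3 * x0 + b 0 3 * x1 + b 0 1 * x3 -
          (x 1 * b 0 1 * b 1 3 + x 3 * b 0 3 * b 1 3 + x 0 * b 0 1 * b 0 3) * h2
      · change x 3 * Pf = 0
        rw [hPf]
        linear_combination b 1 2 * x0 + b 0 2 * x1 + b 0 1 * x2 -
          (x 1 * b 0 1 * b 1 2 + x 2 * b 0 2 * b 1 2 + x 0 * b 0 1 * b 0 2) * h2
    rcases mul_eq_zero.1 this with h | h
    · exact h
    · exact absurd h hne
  have c0 : ∀ v, polar Q ![0, b 2 3, b 1 3, b 1 2] v = 0 := by
    apply hrad
    · simp; linear_combination hP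
    · simp; linear_combination (b 1 3 * b 1 2) * h2
    · simp; linear_combination (b 2 3 * b 1 2) * h2
    · simp; linear_combination (b 2 3 * b 1 3) * h2
  have c1 : ∀ v, polar Q ![b 2 3, 0, b 0 3, b 0 2] v = 0 := by
    apply hrad
    · simp; linear_combination (b 0 3 * b 0 2) * h2
    · simp; linear_combination hP
    · simp; linear_combination (b 2 3 * b 0 2) * h2
    · simp; linear_combination (b 2 3 * b 0 3) * h2
  have c2 : ∀ v, polar Q ![b 1 3, b 0 3, 0, b 0 1] v = 0 := by
    apply hrad
    · simp; linear_combination (b 0 3 * b 0 1) * h2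
    · simp; linear_combination (b 1 3 * b 0 1) * h2
    · simp; linear_combination hP
    · simp; linear_combination (b 1 3 * b 0 3) * h2
  have c3 : ∀ v, polar Q ![b 1 2, b 0 2, b 0 1, 0] v = 0 := by
    apply hrad
    · simp; linear_combination (b 0 2 * b 0 1) * h2
    · simp; linear_combination (b 1 2 * b 0 1) * h2
    · simp; linear_combination (b 1 2 * b 0 2) * h2
    · simp; linear_combination hP
  have step : ∀ (c d : Fin 4 → F) (i : Fin 4), (∀ v, polar Q c v = 0) → (∀ v, polar Q d v = 0) →
      c i = 0 → (c = 0 → d i = 0) → d i = 0 := by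
    intro c d i hc hd' hci h0
    by_cases hc0 : c = 0
    · exact h0 hc0
    · obtain ⟨t, ht⟩ := prop c d hc hd' hc0
      rw [ht, Pi.smul_apply, hci, smul_zero]
  have b23 : b 2 3 = 0 := step _ ![b 2 3, 0, b 0 3, b 0 2] 0 c0 c1 rfl
    (fun hh => by simpa using congrFun hh 1)
  have b13 : b 1 3 = 0 := step _ ![b 1 3, b 0 3, 0, b 0 1] 0 c0 c2 rfl
    (fun hh => by simpa using congrFun hh 2)
  have b12 : b 1 2 = 0 := step _ ![b 1 2, b 0 2, b 0 1, 0] 0 c0 c3 rfl
    (fun hh => by simpa using congrFun hh 3)
  have b03 : b 0 3 = 0 := step _ ![b 1 3, b 0 3, 0, b 0 1] 1 c1 c2 rfl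
    (fun hh => by simpa using congrFun hh 2)
  have b02 : b 0 2 = 0 := step _ ![b 1 2, b 0 2, b 0 1, 0] 1 c1 c3 rfl
    (fun hh => by simpa using congrFun hh 3)
  have b01 : b 0 1 = 0 := step _ ![b 1 2, b 0 2, b 0 1, 0] 2 c2 c3 rfl
    (fun hh => by simpa using congrFun hh 3)
  have hall : ∀ u v, polar Q u v = 0 := by
    intro u
    apply hrad <;> simp only [b01, b02, b03, b12, b13, b23] <;> ring
  obtain ⟨t, ht⟩ := prop (Pi.single 0 1) (Pi.single 1 1) (hall _) (hall _) (by
    intro hh
    have := congrFun hh 0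
    simp at this)
  have := congrFun ht 1
  simp at this

/-- A set of `q² + 1` points without collinear triples which is the zero set of a quadratic form is
an elliptic quadric. -/
theorem ell_of (S : Set (Projectivization F (Fin 4 → F))) (hS : S.ncard = Fintype.card F ^ 2 + 1)
    (hcap : ∀ f : Fin 3 → Projectivization F (Fin 4 → F), Function.Injective f →
      (∀ i, f i ∈ S) → LinearIndependent F (fun i => (f i).rep))
    (Q : QuadraticForm F (Fin 4 → F)) (hQ : ∀ p, p ∈ S ↔ Q p.rep = 0) :
    (∀ x, (∀ y, polar Q x y = 0) → x = 0) ∧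
    ∀ x y : Fin 4 → F, LinearIndependent F ![x, y] → ∃ a b : F, Q (a • x + b • y) ≠ 0 := by
  have hmk : ∀ (v : Fin 4 → F) (hv : v ≠ 0), Projectivization.mk F v hv ∈ S ↔ Q v = 0 := by
    intro v hv
    rw [hQ]
    obtain ⟨a, ha⟩ := Projectivization.exists_smul_eq_mk_rep F v hv
    rw [← ha]
    have : (a • v : Fin 4 → F) = (a : F) • v := rfl
    rw [this, QuadraticMap.map_smul]
    simp
  have hL : ∀ x y : Fin 4 → F, LinearIndependent F ![x, y] → ∃ a b : F,
      Q (a • x + b • y) ≠ 0 := by
    intro x y hxy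
    by_contra hno
    push Not at hno
    have hxy' := LinearIndependent.pair_iff.1 hxy
    have hx0 : x ≠ 0 := by
      intro hh
      have := (hxy' 1 0 (by rw [hh]; simp)).1
      exact one_ne_zero this
    have hy0 : y ≠ 0 := by
      intro hh
      have := (hxy' 0 1 (by rw [hh]; simp)).2
      exact one_ne_zero this
    have hs0 : x + y ≠ 0 := by
      intro hh
      have := (hxy' 1 1 (by rw [one_smul, one_smul]; exact hh)).1
      exact one_ne_zero this
    have e1 : Projectivization.mk F x hx0 ∈ S := by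
      rw [hmk]; simpa using hno 1 0
    have e2 : Projectivization.mk F y hy0 ∈ S := by
      rw [hmk]; simpa using hno 0 1
    have e3 : Projectivization.mk F (x + y) hs0 ∈ S := by
      rw [hmk]; simpa using hno 1 1
    have n12 : Projectivization.mk F x hx0 ≠ Projectivization.mk F y hy0 := by
      intro hh
      obtain ⟨a, ha⟩ := (Projectivization.mk_eq_mk_iff' F _ _ hx0 hy0).1 hh
      have := (hxy' 1 (-a) (by rw [one_smul, neg_smul, ha, add_neg_cancel])).1
      exact one_ne_zero this
    have n13 : Projectivization.mk F x hx0 ≠ Projectivization.mk F (x + y) hs0 := by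
      intro hh
      obtain ⟨a, ha⟩ := (Projectivization.mk_eq_mk_iff' F _ _ hx0 hs0).1 hh
      have h1 := hxy' (a - 1) a (by
        rw [sub_smul, one_smul]
        rw [smul_add] at ha
        calc a • x - x + a • y = (a • x + a • y) - x := by abel
          _ = 0 := by rw [ha, sub_self])
      have := h1.1
      rw [h1.2] at this
      simp at this
    have n23 : Projectivization.mk F y hy0 ≠ Projectivization.mk F (x + y) hs0 := by
      intro hh
      obtain ⟨a, ha⟩ := (Projectivization.mk_eq_mk_iff' F _ _ hy0 hs0).1 hh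
      have h1 := hxy' a (a - 1) (by
        rw [sub_smul, one_smul]
        rw [smul_add] at ha
        calc a • x + (a • y - y) = (a • x + a • y) - y := by abel
          _ = 0 := by rw [ha, sub_self])
      have := h1.2
      rw [h1.1] at this
      simp at this
    let f : Fin 3 → Projectivization F (Fin 4 → F) :=
      ![Projectivization.mk F x hx0, Projectivization.mk F y hy0, Projectivization.mk F (x + y) hs0]
    have hf : Function.Injective f := by
      intro i j hij
      fin_cases i <;> fin_cases j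
      · rfl
      · exact absurd hij n12
      · exact absurd hij n13
      · exact absurd hij.symm n12
      · rfl
      · exact absurd hij n23
      · exact absurd hij.symm n13
      · exact absurd hij.symm n23
      · rfl
    have hli := hcap f hf (by intro i; fin_cases i; exacts [e1, e2, e3])
    obtain ⟨a, ha⟩ := Projectivization.exists_smul_eq_mk_rep F x hx0
    obtain ⟨b, hb⟩ := Projectivization.exists_smul_eq_mk_rep F y hy0
    obtain ⟨c, hc⟩ := Projectivization.exists_smul_eq_mk_rep F (x + y) hs0
    have h3 := Fintype.linearIndependent_iff.1 hli ![(a : F)⁻¹, (b : F)⁻¹, -(c : F)⁻¹] (by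
      rw [Fin.sum_univ_three]
      change (a : F)⁻¹ • (Projectivization.mk F x hx0).rep +
        (b : F)⁻¹ • (Projectivization.mk F y hy0).rep +
        (-(c : F)⁻¹) • (Projectivization.mk F (x + y) hs0).rep = 0
      rw [← ha, ← hb, ← hc]
      change (a : F)⁻¹ • ((a : F) • x) + (b : F)⁻¹ • ((b : F) • y) +
        (-(c : F)⁻¹) • ((c : F) • (x + y)) = 0
      rw [smul_smul, smul_smul, smul_smul, inv_mul_cancel₀ a.ne_zero, inv_mul_cancel₀ b.ne_zero,
        neg_mul, inv_mul_cancel₀ c.ne_zero, one_smul, one_smul, neg_smul, one_smul]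
      abel) 0
    have h4 : (a : F)⁻¹ = 0 := h3
    exact (inv_ne_zero a.ne_zero) h4
  refine ⟨?_, hL⟩
  have hfin : S.Finite := Set.finite_of_ncard_ne_zero (by rw [hS]; omega)
  have hS2 : ∀ x : Fin 4 → F, x = 0 ∨ ∃ y, Q y = 0 ∧ LinearIndependent F ![x, y] := by
    intro x
    by_cases hx : x = 0
    · left; exact hx
    right
    obtain ⟨p, hp, hne⟩ : ∃ p ∈ S, p ≠ Projectivization.mk F x hx := by
      by_contra hno
      push Not at hno
      have hsub : S ⊆ {Projectivization.mk F x hx} := fun p hp => hno p hp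
      have := Set.ncard_le_ncard hsub (Set.finite_singleton _)
      rw [Set.ncard_singleton, hS] at this
      have hc : 0 < Fintype.card F := Fintype.card_pos
      have : 0 < Fintype.card F ^ 2 := by positivity
      omega
    refine ⟨p.rep, (hQ p).1 hp, ?_⟩
    rw [LinearIndependent.pair_iff]
    intro s t hst
    have ht : t = 0 := by
      by_contra ht
      apply hne
      have h1 : p.rep = (-(t⁻¹ * s)) • x := by
        have : t⁻¹ • (s • x + t • p.rep) = 0 := by rw [hst, smul_zero]
        rw [smul_add, smul_smul, smul_smul, inv_mul_cancel₀ ht, one_smul] at this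
        rw [neg_smul]
        exact eq_neg_of_add_eq_zero_right this
      have h2 : Projectivization.mk F p.rep p.rep_nonzero = Projectivization.mk F x hx :=
        (Projectivization.mk_eq_mk_iff' F _ _ p.rep_nonzero hx).2 ⟨_, h1.symm⟩
      rw [Projectivization.mk_rep] at h2
      exact h2
    rw [ht, zero_smul, add_zero] at hst
    exact ⟨(smul_eq_zero.1 hst).resolve_right hx, ht⟩
  have hR := rad_sing Q hL hS2
  intro x hx
  by_cases h2 : (2 : F) = 0
  · haveI : CharP F 2 := CharTwo.of_one_ne_zero_of_two_eq_zero one_ne_zero h2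
    exact rad_two Q hR x hx
  · apply hR x hx
    have h1 := hx x
    rw [polar_self] at h1
    rw [two_smul, ← two_mul] at h1
    exact (mul_eq_zero.1 h1).resolve_left h2

/-- four points of `S` never in a plane: three points never on a line. -/
theorem three_of_four (S : Set (Projectivization F (Fin 4 → F))) (hS : 4 ≤ S.ncard)
    (h4 : ∀ f : Fin 4 → Projectivization F (Fin 4 → F), Function.Injective f →
      (∀ i, f i ∈ S) → LinearIndependent F (fun i => (f i).rep))
    (f : Fin 3 → Projectivization F (Fin 4 → F)) (hf : Function.Injective f)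
    (hfS : ∀ i, f i ∈ S) : LinearIndependent F (fun i => (f i).rep) := by
  obtain ⟨p, hp, hne⟩ : ∃ p ∈ S, p ∉ Set.range f := by
    by_contra hno
    push Not at hno
    have hsub : S ⊆ Set.range f := fun p hp => hno p hp
    have h1 := Set.ncard_le_ncard hsub (Set.finite_range f)
    have h2 : (Set.range f).ncard ≤ 3 := by
      rw [← Set.image_univ]
      refine (Set.ncard_image_le Set.finite_univ).trans ?_
      rw [Set.ncard_univ, Nat.card_eq_fintype_card, Fintype.card_fin]
    omega
  let g : Fin 4 → Projectivization F (Fin 4 → F) := Fin.snoc f p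
  have hgc : ∀ i : Fin 3, g i.castSucc = f i := fun i => by
    simp [g]
  have hgl : g (Fin.last 3) = p := Fin.snoc_last (α := fun _ => Projectivization F (Fin 4 → F)) p f
  have hg : Function.Injective g := by
    intro i j hij
    induction i using Fin.lastCases with
    | last =>
      induction j using Fin.lastCases with
      | last => rfl
      | cast j =>
        rw [hgl, hgc] at hij
        exact absurd ⟨j, hij.symm⟩ hne
    | cast i =>
      induction j using Fin.lastCases with
      | last =>
        rw [hgl, hgc] at hij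
        exact absurd ⟨i, hij⟩ hne
      | cast j =>
        rw [hgc, hgc] at hij
        rw [hf hij]
  have hgS : ∀ i, g i ∈ S := by
    intro i
    induction i using Fin.lastCases with
    | last => rw [hgl]; exact hp
    | cast i => rw [hgc]; exact hfS i
  have h5 := (h4 g hg hgS).comp _ (Fin.castSucc_injective 3)
  have h6 : (fun i : Fin 3 => (f i).rep) = (fun i => (g i).rep) ∘ Fin.castSucc := by
    funext i
    rw [Function.comp_apply, hgc]
  rw [h6]
  exact h5

/-- The classification, with elliptic quadrics in the sense of the problem file. -/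
theorem own (F : Type) [Field F] [Fintype F] (S : Set (Projectivization F (Fin 4 → F)))
    (hS : S.ncard = Fintype.card F ^ 2 + 1)
    (h3 : Fintype.card F ≠ 2 →
      ∀ f : Fin 3 → Projectivization F (Fin 4 → F), Function.Injective f →
        (∀ i, f i ∈ S) → LinearIndependent F (fun i => (f i).rep))
    (h4 : Fintype.card F = 2 →
      ∀ f : Fin 4 → Projectivization F (Fin 4 → F), Function.Injective f →
        (∀ i, f i ∈ S) → LinearIndependent F (fun i => (f i).rep)) :
    (∃ Q : QuadraticForm F (Fin 4 → F),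
      (∀ x, (∀ y, QuadraticMap.polar Q x y = 0) → x = 0) ∧
      (∀ x y : Fin 4 → F, LinearIndependent F ![x, y] → ∃ a b : F, Q (a • x + b • y) ≠ 0) ∧
      ∀ p, p ∈ S ↔ Q p.rep = 0) ∨
    (∃ e : ℕ, 1 ≤ e ∧ Fintype.card F = 2 ^ (2 * e + 1) ∧
      ∃ A : (Fin 4 → F) ≃ₗ[F] (Fin 4 → F), ∀ p, p ∈ S ↔
        ((∃ s t c : F,
            A ![1, s, t, s ^ (2 ^ (e + 1)) + s * t + t ^ (2 ^ (e + 1) + 2)] = c • p.rep) ∨
         ∃ c : F, A ![0, 0, 0, 1] = c • p.rep)) := by
  rcases frozen F S hS h3 h4 with ⟨Q, hQ⟩ | h
  · left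
    have hcap : ∀ f : Fin 3 → Projectivization F (Fin 4 → F), Function.Injective f →
        (∀ i, f i ∈ S) → LinearIndependent F (fun i => (f i).rep) := by
      by_cases hc : Fintype.card F = 2
      · exact three_of_four S (by rw [hS, hc]; norm_num) (h4 hc)
      · exact h3 hc
    obtain ⟨h1, h2⟩ := ell_of S hS hcap Q hQ
    exact ⟨Q, h1, h2, hQ⟩
  · right; exact h

end Pool.Agent.H51.OVO
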