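import Pool.Agent.H41.OVO.Stmt
import Pool.Agent.H61.BPA.Stmt
import Pool.Agent.H1.OV.Deg
import Pool.Agent.H22.OV8.Top
import Pool.Agent.H51.QOV.All

/-! Ovoids of `PG(3, 2^h)`, `h ≥ 3`: from the affine normal form (board `bpa`), layer 1 and layer 2
to the classification. -/

set_option autoImplicit false
set_option linter.unusedSectionVars false
set_option linter.style.haveILetI false

namespace Pool.Agent.H51.OVO

open Finset Function Pool.OVE Pool.BPA

section co

variable {F : Type} [Field F] {h : ℕ}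

/-- the coefficients at digit `k` commute with `rho k`. -/
theorem ext_comm (k : ZMod h) (p p' : Fin 4) (T : Module.End F (E F h))
    (A : Matrix (Fin 4) (Fin 4) F) : Commute (Pool.OVE.ext k p p' T) (rho k A) := by
  have e1 : ∀ q, Matrix.single p' q (1 : F) * A = ∑ r, A q r • Matrix.single p' r (1 : F) := by
    intro q
    ext i j
    rw [Matrix.sum_apply]
    simp only [Matrix.smul_apply, smul_eq_mul, Matrix.mul_apply, Matrix.single_apply]
    simp only [ite_mul, one_mul, zero_mul, mul_ite, mul_one, mul_zero]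
    by_cases hi : p' = i
    · simp [hi]
    · simp [hi]
  have e2 : ∀ q, A * Matrix.single q p (1 : F) = ∑ r, A r q • Matrix.single r p (1 : F) := by
    intro q
    ext i j
    rw [Matrix.sum_apply]
    simp only [Matrix.smul_apply, smul_eq_mul, Matrix.mul_apply, Matrix.single_apply]
    simp only [mul_ite, mul_one, mul_zero]
    by_cases hj : p = j
    · simp [hj]
    · simp [hj]
  unfold Pool.OVE.ext Commute SemiconjBy
  rw [Finset.sum_mul, Finset.mul_sum]
  have h1 : ∀ q, rho k (Matrix.single q p (1 : F)) * T * rho k (Matrix.single p' q (1 : F)) *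
      rho k A = ∑ r, A q r • (rho k (Matrix.single q p (1 : F)) * T *
        rho k (Matrix.single p' r (1 : F))) := by
    intro q
    rw [mul_assoc, ← map_mul, e1, map_sum, Finset.mul_sum]
    refine Finset.sum_congr rfl fun r _ => ?_
    rw [map_smul, mul_smul_comm]
  have h2 : ∀ q, rho k A * (rho k (Matrix.single q p (1 : F)) * T *
      rho k (Matrix.single p' q (1 : F))) = ∑ r, A r q • (rho k (Matrix.single r p (1 : F)) * T *
        rho k (Matrix.single p' q (1 : F))) := by
    intro q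
    rw [← mul_assoc, ← mul_assoc, ← map_mul, e2, map_sum, Finset.sum_mul, Finset.sum_mul]
    refine Finset.sum_congr rfl fun r _ => ?_
    rw [map_smul, smul_mul_assoc, smul_mul_assoc]
  rw [Finset.sum_congr rfl fun q _ => h1 q, Finset.sum_congr rfl fun q _ => h2 q,
    Finset.sum_comm]

end co

section fin

variable {F : Type} [Field F] [Fintype F] [CharP F 2]

/-- the vector of an affine point. -/
def vf (f : F → F → F) (u : F × F) : Fin 4 → F := ![1, u.1, u.2, f u.1 u.2]

theorem vf_inj (f : F → F → F) : Function.Injective (vf f) := by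
  intro u v huv
  have h1 := congrFun huv 1
  have h2 := congrFun huv 2
  ext
  · simpa [vf] using h1
  · simpa [vf] using h2

open Classical in
/-- the vectors of the ovoid. -/
noncomputable def OmF (f : F → F → F) : Finset (Fin 4 → F) :=
  insert ![0, 0, 0, 1] (Finset.univ.image (vf f))

theorem mem_OmF (f : F → F → F) (y : Fin 4 → F) :
    y ∈ OmF f ↔ y = ![0, 0, 0, 1] ∨ ∃ u, vf f u = y := by
  classical
  unfold OmF
  rw [Finset.mem_insert, Finset.mem_image]
  simp

theorem card_OmF (f : F → F → F) : (OmF f).card = Fintype.card F ^ 2 + 1 := by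
  classical
  unfold OmF
  rw [Finset.card_insert_of_notMem, Finset.card_image_of_injective _ (vf_inj f),
    Finset.card_univ, Fintype.card_prod, sq]
  rw [Finset.mem_image]
  rintro ⟨u, _, hu⟩
  have := congrFun hu 0
  simp [vf] at this

theorem ov_OmF (f : F → F → F)
    (hov : ∀ u w : F × F, u ≠ w → f u.1 u.2 + f w.1 w.2 ≠ u.1 * w.2 + u.2 * w.1) :
    ∀ y ∈ OmF f, ∀ z ∈ OmF f, y ≠ z → Pool.OVE.om y z ≠ 0 := by
  have h2 : (2 : F) = 0 := CharTwo.two_eq_zero
  intro y hy z hz hyz
  rw [mem_OmF] at hy hz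
  rcases hy with rfl | ⟨u, rfl⟩
  · rcases hz with rfl | ⟨w, rfl⟩
    · exact absurd rfl hyz
    · simp [Pool.OVE.om, vf]
  · rcases hz with rfl | ⟨w, rfl⟩
    · simp [Pool.OVE.om, vf]
    · have huw : u ≠ w := fun hh => hyz (by rw [hh])
      have := hov u w huw
      intro hh
      apply this
      simp [Pool.OVE.om, vf] at hh
      linear_combination hh - (u.1 * w.2 + u.2 * w.1) * h2

end fin

/-- from layers 1 and 2 to the form of `f`. -/
theorem f_form (hBase : BaseStmt) (hTwo : LayerTwoStmt) (F : Type) [Field F] [Fintype F]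
    [CharP F 2] (h : ℕ) [NeZero h] (h3 : 3 ≤ h) (hq : Fintype.card F = 2 ^ h) (f : F → F → F)
    (hov : ∀ u w : F × F, u ≠ w → f u.1 u.2 + f w.1 w.2 ≠ u.1 * w.2 + u.2 * w.1) :
    ∃ k : ZMod h, k ≠ 0 ∧ k ≠ 1 ∧ ∃ M : Fin 3 → Fin 3 → F, ∀ s t : F, f s t = s * t +
      ∑ a, ∑ b, M a b * ((![1, s, t] : Fin 3 → F) a) ^ 2 *
        ((![1, s, t] : Fin 3 → F) b) ^ 2 ^ k.val := by
  obtain ⟨Θ, hΘ⟩ := hBase F h (OmF f) hq h3 (card_OmF f) (ov_OmF f hov)
  obtain ⟨k, hk0, hk1, hk⟩ := hTwo F h (OmF f) Θ hΘ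
  have comm : ∀ m, Trv Θ m → ∀ i A, Commute (Θ i) (rho m A) := by
    intro m hm i A
    apply LinearMap.ext
    intro φ
    rw [Module.End.mul_apply, Module.End.mul_apply]
    exact hm i A φ
  refine Pool.Agent.H1.OV.Deg.deg_form h3 Θ (comm 0 hΘ.t0) (comm 1 hΘ.t1) hΘ.sa ?_ k
    (fun m hm => comm m (hk m hm)) f ?_ ?_
  · intro k hk0 hk1 i
    refine ⟨fun b => co k b (Θ i), fun b A => ext_comm k _ _ _ A, ?_⟩
    exact hΘ.slot k hk0 hk1 i
  · intro s t
    exact hΘ.e5 ![1, s, t, f s t] ((mem_OmF f _).2 (Or.inr ⟨(s, t), rfl⟩))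
  · exact hΘ.e5 ![0, 0, 0, 1] ((mem_OmF f _).2 (Or.inl rfl))

/-- `q = 2^h`, `h ≥ 3`. -/
theorem t_even (hAff : AffStmt) (hBase : BaseStmt) (hTwo : LayerTwoStmt) : EvenStmt := by
  intro F _ _ S h h3 hq hcard hcap
  haveI : CharP F 2 := charP_of_card_eq_prime_pow hq
  haveI : NeZero h := ⟨by omega⟩
  have h4 : 4 ≤ Fintype.card F := by
    rw [hq]
    calc 4 = 2 ^ 2 := by norm_num
      _ ≤ 2 ^ h := Nat.pow_le_pow_right (by norm_num) (by omega)
  obtain ⟨A, f, hmem, hov⟩ := hAff F S h4 hcard hcap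
  obtain ⟨k, hk0, hk1, M, hM⟩ := f_form hBase hTwo F h h3 hq f hov
  by_cases h3' : h = 3
  · subst h3'
    have hk2 : k = 2 := by
      revert hk0 hk1
      revert k
      intro k _ h0 h1
      fin_cases k
      · exact absurd rfl h0
      · exact absurd rfl h1
      · rfl
    have hv : k.val = 2 := by rw [hk2]; rfl
    refine Pool.Agent.H22.OV8.top8 F S (by rw [hq]; norm_num) hcap A f hmem hov ?_
    refine ⟨M 0 0, M 1 0, M 2 0, M 0 1, M 0 2, M 1 2, M 2 1, M 1 1, M 2 2, ?_⟩
    intro s t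
    rw [hM s t, hv]
    simp [Fin.sum_univ_three]
    ring
  · refine Pool.Agent.H51.QOV.all_top F S h (by omega) hq hcard hcap ⟨A, f, ?_, hmem⟩
    exact Pool.Agent.H1.OV.Deg.deg_third k.val M f hM

end Pool.Agent.H51.OVO
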